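import Pool.Agent.Q207.HT.Conv

/-!
# Project HT: assembly
-/

set_option autoImplicit false
set_option linter.all false

open Matrix Finset

namespace Q207.HT

open Q207.DB (Labels Letter form dual prodT BD Okf Dl)
open Q207.HG
open Q207.HM (lk Yx QA cls Lin Bil TP QuadT tpos QG_QA det_Yt cls_size cls_neg cls_perm perm_cls)
open Pool.Agent.Y123.GN (Clf Spf)

section gen

variable {K κ : Type} [Fintype K] [Fintype κ] [DecidableEq κ]

/-- a rational tensor as a complex tensor -/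
noncomputable abbrev qc {κ K : Type} (u : (κ → K) → ℚ) : (κ → K) → ℂ := fun p => ((u p : ℚ) : ℂ)

lemma lieA_add (X X' : Matrix K K ℂ) (u : (κ → K) → ℂ) : lieA (X + X') u = lieA X u + lieA X' u := by
  funext p
  simp only [lieA_apply, Matrix.add_apply, Pi.add_apply, add_mul, Finset.sum_add_distrib]

lemma lieA_smul (c : ℂ) (X : Matrix K K ℂ) (u : (κ → K) → ℂ) : lieA (c • X) u = c • lieA X u := by
  funext p
  simp only [lieA_apply, Matrix.smul_apply, Pi.smul_apply, smul_eq_mul, Finset.mul_sum]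
  refine Finset.sum_congr rfl fun l _ => Finset.sum_congr rfl fun x _ => ?_
  ring

lemma lieA_zero (u : (κ → K) → ℂ) : lieA (0 : Matrix K K ℂ) u = 0 := by
  funext p
  simp only [lieA_apply, Matrix.zero_apply, zero_mul, Finset.sum_const_zero, Pi.zero_apply]

lemma lieA_neg (X : Matrix K K ℂ) (u : (κ → K) → ℂ) : lieA (-X) u = -lieA X u := by
  have h1 : -X = (-1 : ℂ) • X := by rw [neg_smul, one_smul]
  rw [h1, lieA_smul, neg_smul, one_smul]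

omit [Fintype κ] [DecidableEq κ] in
lemma gensL_mono {H : Set (Matrix K K ℂ)} {Δ Δ' : ℕ → Prop} (h : ∀ s, Δ s → Δ' s) : gensL H Δ κ ≤ gensL H Δ' κ := by
  unfold gensL
  refine Submodule.span_mono ?_
  rintro x ⟨l, s, e, u, hu, rfl⟩
  exact ⟨l, s, e, u, fun j => ⟨h _ (hu j).1, (hu j).2⟩, rfl⟩

lemma GenL.mono {H : Set (Matrix K K ℂ)} {Δ Δ' : ℕ → Prop} (hG : GenL H Δ) (h : ∀ s, Δ s → Δ' s) : GenL H Δ' :=
  fun κ _ _ x hx => gensL_mono h (hG κ x hx)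

end gen

section annih

variable {K : Type} [Fintype K] [DecidableEq K] {q : ℕ}

lemma lieA_rho (X : Matrix K K ℂ) (u : (Fin q → K) → ℂ) : lieA X u = rho X u := rfl

/-- the rational matrices which kill a rational tensor -/
noncomputable def ann (u : (Fin q → K) → ℚ) : Submodule ℚ (Matrix K K ℚ) where
  carrier := {X | lieA (cmx X)ᵀ (qc u) = 0}
  zero_mem' := by
    show lieA (cmx 0)ᵀ (qc u) = 0
    rw [cmx_zero, Matrix.transpose_zero, lieA_zero]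
  add_mem' := by
    intro X Y hX hY
    show lieA (cmx (X + Y))ᵀ (qc u) = 0
    rw [cmx_add, Matrix.transpose_add, lieA_add]
    have h1 : lieA (cmx X)ᵀ (qc u) = 0 := hX
    have h2 : lieA (cmx Y)ᵀ (qc u) = 0 := hY
    rw [h1, h2, add_zero]
  smul_mem' := by
    intro c X hX
    show lieA (cmx (c • X))ᵀ (qc u) = 0
    rw [cmx_smul, Matrix.transpose_smul, lieA_smul]
    have h1 : lieA (cmx X)ᵀ (qc u) = 0 := hX
    rw [h1, smul_zero]

lemma mem_ann {u : (Fin q → K) → ℚ} {X : Matrix K K ℚ} : X ∈ ann u ↔ lieA (cmx X)ᵀ (qc u) = 0 := Iff.rfl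

lemma ann_br (u : (Fin q → K) → ℚ) {X Y : Matrix K K ℚ} (hX : X ∈ ann u) (hY : Y ∈ ann u) : X * Y - Y * X ∈ ann u := by
  rw [mem_ann] at hX hY ⊢
  rw [cmx_br, Matrix.transpose_sub, Matrix.transpose_mul, Matrix.transpose_mul]
  rw [lieA_rho] at hX hY ⊢
  rw [Pool.Agent.Q198.HG.hom K q]
  show rho (cmx Y)ᵀ (rho (cmx X)ᵀ (qc u)) - rho (cmx X)ᵀ (rho (cmx Y)ᵀ (qc u)) = 0
  rw [hX, hY, map_zero, map_zero, sub_zero]

lemma ann_span (u : (Fin q → K) → ℚ) {X : Matrix K K ℂ} (hX : X ∈ Submodule.span ℂ (cmx '' (ann u : Set (Matrix K K ℚ)))) :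
    lieA Xᵀ (qc u) = 0 := by
  induction hX using Submodule.span_induction with
  | mem Z hZ =>
    obtain ⟨Y, hY, rfl⟩ := hZ
    exact hY
  | zero => rw [Matrix.transpose_zero, lieA_zero]
  | add Y Z _ _ h1 h2 => rw [Matrix.transpose_add, lieA_add, h1, h2, add_zero]
  | smul c Y _ h1 => rw [Matrix.transpose_smul, lieA_smul, h1, smul_zero]

lemma transpose_span {S : Set (Matrix K K ℂ)} {S' : Set (Matrix K K ℂ)} (h : ∀ X ∈ S, Xᵀ ∈ S') {X : Matrix K K ℂ}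
    (hX : X ∈ Submodule.span ℂ S) : Xᵀ ∈ Submodule.span ℂ S' := by
  induction hX using Submodule.span_induction with
  | mem Z hZ => exact Submodule.subset_span (h Z hZ)
  | zero => rw [Matrix.transpose_zero]; exact Submodule.zero_mem _
  | add Y Z _ _ h1 h2 => rw [Matrix.transpose_add]; exact Submodule.add_mem _ h1 h2
  | smul c Y _ h1 => rw [Matrix.transpose_smul]; exact Submodule.smul_mem _ _ h1

lemma ann_mem (hRat : S_Rat) (u : (Fin q → K) → ℚ) {Φ : Matrix K K ℂ} (hΦ : lieA Φᵀ (qc u) = 0) :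
    Φ ∈ Submodule.span ℂ (cmx '' (ann u : Set (Matrix K K ℚ))) := by
  have h1 := hRat K q u Φᵀ hΦ
  have h2 := transpose_span (S' := cmx '' (ann u : Set (Matrix K K ℚ))) (fun X hX => ?_) h1
  · rw [Matrix.transpose_transpose] at h2
    exact h2
  · obtain ⟨Y, hY, rfl⟩ := hX
    refine ⟨Yᵀ, ?_, ?_⟩
    · show lieA (cmx Yᵀ)ᵀ (qc u) = 0
      have h3 : (cmx Yᵀ)ᵀ = Y.map (algebraMap ℚ ℂ) := by
        ext a b
        rfl
      rw [h3]
      exact hY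
    · ext a b
      rfl

end annih

variable {k : ℕ} {r : Fin k → ℕ} {n : ∀ i, Fin (r i) → ℕ} {α : ∀ i j, Fin (n i j) → ℚ}

/-- the degrees of the generators -/
def Dg (α : ∀ i j, Fin (n i j) → ℚ) (s : ℕ) : Prop :=
  s = 2 ∨ ∃ i j, s = n i j ∧ ¬ (Even (n i j) ∧ cls (α i j) = cls fun l => -α i j l)

/-- the matrices acting on the tensors -/
def HS (D : ∀ i, Pk (α i)) (C : Matrix (Ix n) (Ix n) ℂ) : Set (Matrix (Ix n) (Ix n) ℂ) :=
  {Z | ∃ X ∈ hBB (BBx D), Z = (C⁻¹ * Psi D X * C)ᵀ}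

lemma lkL_flip {p m : ℕ} (d : Bool) (P : Matrix (Fin p) (Fin m) ℂ) (P' : Matrix (Fin m) (Fin p) ℂ) (X : Matrix (Fin m) (Fin m) ℂ) :
    lkL (!d) P'ᵀ Pᵀ X = -(lkL d P P' X)ᵀ := by
  unfold lkL
  cases d
  · simp only [Bool.not_false, if_true, Bool.false_eq_true, if_false]
    rw [Matrix.transpose_mul, Matrix.transpose_mul, Matrix.mul_neg, Matrix.neg_mul, Matrix.mul_assoc]
  · simp only [Bool.not_true, if_true, Bool.false_eq_true, if_false]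
    rw [Matrix.transpose_mul, Matrix.transpose_mul, Matrix.transpose_neg, Matrix.transpose_transpose, Matrix.neg_mul, Matrix.mul_neg,
      neg_neg, Matrix.mul_assoc]

/-- the generation for the fibres -/
theorem gen_HS (hStB : S_StB) (hTrans : S_Trans) (D : ∀ i, Pk (α i)) (h01 : ∀ i j l, 0 < α i j l ∧ α i j l < 1)
    (hn : ∀ i j, 2 ≤ n i j) {C : Matrix (Ix n) (Ix n) ℂ} (hC : IsUnit C.det) : GenL (HS D C) (Dg α) := by
  classical
  have hm : ∀ a, 2 ≤ mu D a := fun a => (D a.1).two (hn a.1) a.2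
  have hok : Okf (BBx D) := by
    intro a ha
    rcases (D a.1).hcl a.2 with h1 | ⟨h1, h2⟩ | ⟨h1, h2, -⟩
    · exact absurd h1 ha
    · exact ⟨h1, Or.inl h2⟩
    · exact ⟨h1, Or.inr h2⟩
  have h1 := hStB (Σ i : Fin k, Fin ((D i).r')) (mu D) (BBx D) hok (fun a => by have := hm a; omega) (Σ i : Fin k, Fin (r i))
    (fun x => n x.1 x.2) (fun x => ⟨x.1, (D x.1).q x.2⟩) (fun x => !(D x.1).d x.2) (fun x => ((D x.1).P' x.2)ᵀ)
    (fun x => ((D x.1).P x.2)ᵀ) (fun x => by rw [← Matrix.transpose_mul, (D x.1).h1, Matrix.transpose_one])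
    (fun x => by rw [← Matrix.transpose_mul, (D x.1).h2, Matrix.transpose_one])
  have hel : ∀ X : Tu (mu D), (blockDiagonal' fun x : (Σ i : Fin k, Fin (r i)) =>
      lkL (!(D x.1).d x.2) ((D x.1).P' x.2)ᵀ ((D x.1).P x.2)ᵀ (X ⟨x.1, (D x.1).q x.2⟩)) = -(Psi D X)ᵀ := by
    intro X
    rw [Psi_apply]
    unfold tot
    rw [blockDiagonal'_transpose, ← blockDiagonal'_neg]
    refine congrArg blockDiagonal' (funext fun x => ?_)
    exact lkL_flip _ _ _ _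
  have hCt1 : (C⁻¹)ᵀ * Cᵀ = 1 := by rw [← Matrix.transpose_mul, Matrix.mul_nonsing_inv _ hC, Matrix.transpose_one]
  have hCt2 : Cᵀ * (C⁻¹)ᵀ = 1 := by rw [← Matrix.transpose_mul, Matrix.nonsing_inv_mul _ hC, Matrix.transpose_one]
  have hT : ∀ M : Matrix (Ix n) (Ix n) ℂ, (C⁻¹ * M * C)ᵀ = Cᵀ * Mᵀ * (C⁻¹)ᵀ := by
    intro M
    rw [Matrix.transpose_mul, Matrix.transpose_mul, Matrix.mul_assoc]
  have h2 := hTrans (Ix n) (Ix n) (HS D C) _ _ h1 Unit (fun _ => (C⁻¹)ᵀ) (fun _ => Cᵀ) ?_ ?_ ?_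
  · refine h2.mono fun s hs => ?_
    rcases hs with h3 | ⟨⟨i, a⟩, h3, h4⟩
    · exact Or.inl h3
    · obtain ⟨j, rfl⟩ := (D i).hq a
      refine Or.inr ⟨i, j, h4.trans ((D i).size j), fun h5 => h3 ?_⟩
      have hBu := (D i).hsy j h5.2
      rcases (D i).hcl ((D i).q j) with h6 | ⟨h6, h7⟩ | ⟨h6, h7, -⟩
      · exfalso
        rw [h6] at hBu
        have : Nonempty (Fin ((D i).m ((D i).q j))) := ⟨⟨0, by have := (D i).two (hn i) ((D i).q j); omega⟩⟩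
        exact not_isUnit_zero hBu
      · exact ⟨h6, h7⟩
      · exfalso
        have h8 := (D i).hod _ h6 h7
        rw [(D i).size j] at h8
        exact (Nat.not_even_iff_odd.2 h8) h5.1
  · rintro _ ⟨w, ⟨X, hX, hw⟩, rfl⟩
    have hw' : w = fun x : (Σ i : Fin k, Fin (r i)) => lkL (!(D x.1).d x.2) ((D x.1).P' x.2)ᵀ ((D x.1).P x.2)ᵀ (X ⟨x.1, (D x.1).q x.2⟩) := funext hw
    refine ⟨(C⁻¹ * Psi D (-X) * C)ᵀ, ⟨-X, Submodule.neg_mem _ (mem_hBB.2 hX), rfl⟩, fun _ => ?_⟩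
    rw [hw', hel, hT, map_neg, Matrix.transpose_neg]
    calc -(Psi D X)ᵀ * (C⁻¹)ᵀ = ((C⁻¹)ᵀ * Cᵀ) * -(Psi D X)ᵀ * (C⁻¹)ᵀ := by rw [hCt1, Matrix.one_mul]
      _ = _ := by simp only [Matrix.mul_assoc]
  · rintro _ ⟨X, hX, rfl⟩
    refine ⟨-(Psi D (-X))ᵀ, ⟨_, ⟨-X, mem_hBB.1 (Submodule.neg_mem _ hX), fun _ => rfl⟩, (hel (-X)).symm⟩, fun _ => ?_⟩
    rw [hT, map_neg, Matrix.transpose_neg, neg_neg, Matrix.mul_assoc, hCt1, Matrix.mul_one]
  · rw [Finset.univ_unique, Finset.sum_singleton, hCt2]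

/-- flat tensors -/
def FlatT (α : ∀ i j, Fin (n i j) → ℚ) (C : Matrix (Ix n) (Ix n) ℂ) {κ : Type} [Fintype κ] [DecidableEq κ]
    (v : (κ → Ix n) → ℂ) : Prop := ∀ A : (∀ i j, Matrix (Fin (n i j)) (Fin (n i j)) ℂ), (∀ i, A i ∈ MonE (α i)) →
  lieA (C⁻¹ * tot A * C)ᵀ v = 0

/-- flat tensors are those killed by the Lie algebra -/
lemma flat_iff (D : ∀ i, Pk (α i)) (h01 : ∀ i j l, 0 < α i j l ∧ α i j l < 1)
    (hn : ∀ i j, 2 ≤ n i j) {C : Matrix (Ix n) (Ix n) ℂ} {κ : Type} [Fintype κ] [DecidableEq κ] (v : (κ → Ix n) → ℂ) :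
    FlatT α C v ↔ InvL (HS D C) v := by
  constructor
  · rintro h _ ⟨X, hX, rfl⟩
    rw [Psi_apply]
    exact h _ fun i => conv (r i) (n i) (α i) (D i) (h01 i) (hn i) (fun a => X ⟨i, a⟩) fun a => mem_hBB.1 hX ⟨i, a⟩
  · intro h A hA
    obtain ⟨X, hX, hXA⟩ := monE_Psi Pool.Agent.Q198.HG.der Pool.Agent.Q198.HG.tr Pool.Agent.Q195.HG.conc
      Pool.Agent.Q195.HG.form D h01 hn hA
    rw [← hXA]
    exact h _ ⟨X, hX, rfl⟩

/-- **real flat tensors are Hodge tensors** -/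
theorem flat_hodge (hReal : S_Real) (D : ∀ i, Pk (α i)) (h01 : ∀ i j l, 0 < α i j l ∧ α i j l < 1)
    (hn : ∀ i j, 2 ≤ n i j) {z : Fin k → ℝ} (hz : ∀ i, 0 < z i ∧ z i < 1) {C : Matrix (Ix n) (Ix n) ℂ} (hC : IsUnit C.det)
    {H : ℤ → Submodule ℂ (Ix n → ℂ)} (hsum : DirectSum.IsInternal H)
    (hF : ∀ p, (⨆ q : {q : ℤ // p ≤ q}, H q) = Submodule.span ℂ {v | ∃ a, p ≤ lvx n a ∧ v = (tot (Yz α z) * C) a})
    (hconj : ∀ p, ∀ v ∈ H p, (fun a => (starRingEnd ℂ) (v a)) ∈ H (-p)) {Φ : Matrix (Ix n) (Ix n) ℂ}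
    (hΦ : ∀ p, ∀ v ∈ H p, v ᵥ* Φ = (p : ℂ) • v) {q : ℕ} {v : (Fin q → Ix n) → ℂ} (hv : ∀ p, (starRingEnd ℂ) (v p) = v p)
    (hfl : FlatT α C v) : lieA Φᵀ v = 0 := by
  classical
  obtain ⟨y, hy1, -, hy3⟩ := T_existsX Pool.Agent.Q198.HG.der Pool.Agent.Q198.HG.tr Pool.Agent.Q195.HG.conc
    Pool.Agent.Q195.HG.form D h01 hn hz
  have hYu : IsUnit (tot (Yz α z)).det := tot_unit fun i j => Yz_unit h01 hn hz i j
  set Z := tot (Yz α z) * C with hZ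
  have hZu : IsUnit Z.det := by
    rw [hZ, Matrix.det_mul]
    exact hYu.mul hC
  refine hReal (Ix n) (lvx n) Z (C⁻¹ * Psi D y * C) Φ H hZu hsum hconj hF hΦ ?_ q v hv ?_
  · have h1 : Z * (C⁻¹ * Psi D y * C) * Z⁻¹ = tot (Yz α z) * Psi D y * (tot (Yz α z))⁻¹ := by
      rw [hZ, Matrix.mul_inv_rev]
      calc tot (Yz α z) * C * (C⁻¹ * Psi D y * C) * (C⁻¹ * (tot (Yz α z))⁻¹) =
            tot (Yz α z) * (C * C⁻¹) * Psi D y * (C * C⁻¹) * (tot (Yz α z))⁻¹ := by simp only [Matrix.mul_assoc]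
        _ = _ := by rw [Matrix.mul_nonsing_inv _ hC, Matrix.mul_one, Matrix.mul_one]
    rw [h1]
    exact hy3
  · exact (flat_iff D h01 hn v).1 hfl _ ⟨y, mem_hBB.2 hy1, rfl⟩

/-- **Hodge tensors of the sum are flat.** -/
theorem hodge_flat (hRat : S_Rat) (D : ∀ i, Pk (α i)) (h01 : ∀ i j l, 0 < α i j l ∧ α i j l < 1) (hn : ∀ i j, 2 ≤ n i j)
    {J : Type} [Fintype J] [DecidableEq J] {t : Fin k → ℕ} (ht : ∀ i, 2 ≤ t i)
    {C : Matrix (Ix n) (Ix n) ℂ} (hC : IsUnit C.det) {CW ΦW : Matrix J J ℂ} {levJ : J → ℤ} (hCW : IsUnit CW.det)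
    (hCWΦ : CW * ΦW = Matrix.diagonal (fun a => (levJ a : ℂ)) * CW) (hWr : ΦW.map (starRingEnd ℂ) = -ΦW)
    (hG : GoodP (dlR n J) (VsR (fb C CW)) α t) {H : ℤ → Submodule ℂ (Ix n → ℂ)} (htop : (⨆ p, H p) = ⊤)
    (hF : ∀ p, (⨆ q : {q : ℤ // p ≤ q}, H q) = Submodule.span ℂ {v | ∃ a, p ≤ lvx n a ∧ v = (tot (Yv α t) * C) a})
    (hconj : ∀ p, ∀ v ∈ H p, (fun a => (starRingEnd ℂ) (v a)) ∈ H (-p)) {Φ : Matrix (Ix n) (Ix n) ℂ}
    (hΦ : ∀ p, ∀ v ∈ H p, v ᵥ* Φ = (p : ℂ) • v) {q : ℕ} {u : (Fin q → Ix n ⊕ J) → ℚ}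
    (hu : lieA (fb Φ ΦW)ᵀ (qc u) = 0) : ∀ X ∈ HS D C, lieA (fb X 0) (qc u) = 0 := by
  have h1 := main_rel (Pool.Agent.Q198.HG.hom) (Pool.Agent.Q198.HG.tr) (Pool.Agent.Q198.HG.der) (Pool.Agent.Q198.HG.span)
    (Pool.Agent.Q198.HG.low) (Pool.Agent.Q198.HG.zero) (Pool.Agent.Q198.HG.part) (Pool.Agent.Q198.HG.trace) (Q249.HG.grd)
    (Pool.Agent.Q195.HG.good) (Pool.Agent.Q195.HG.perf) (Pool.Agent.Q195.HG.form) (Pool.Agent.Q195.HG.conc) D h01 hn ht hC hCW hCWΦ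
    hWr hG htop hF hconj hΦ (𝔪 := ann u) (fun X hX Y hY => ann_br u hX hY) (ann_mem hRat u hu)
  rintro _ ⟨X, hX, rfl⟩
  have h2 := ann_span u (h1 X hX)
  have h3 : (fb (C⁻¹ * Psi D X * C) (0 : Matrix J J ℂ))ᵀ = fb (C⁻¹ * Psi D X * C)ᵀ 0 := by
    rw [Matrix.fromBlocks_transpose, Matrix.transpose_zero, Matrix.transpose_zero, Matrix.transpose_zero]
  rw [h3] at h2
  exact h2

end Q207.HT
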