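import Pool.Agent.Q207.HT.Stm

/-!
# Project HT: the Lie algebra acts through the explicit Lie algebra
-/

set_option autoImplicit false
set_option linter.all false

open Matrix Finset

namespace Q207.HT

open Q207.HG
open Q207.HM (lk Yx QA cls Lin Bil TP QuadT tpos QG_QA det_Yt cls_size cls_neg cls_perm perm_cls)

lemma card_eq {n n' : ℕ} (σ : Fin n ≃ Fin n') : n' = n := by
  have h1 := Fintype.card_congr σ
  rw [Fintype.card_fin, Fintype.card_fin] at h1
  exact h1.symm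

lemma conv_eq {n n' : ℕ} (hn : 2 ≤ n) {α : Fin n → ℚ} {α' : Fin n' → ℚ} (h : ∀ i, 0 < α i ∧ α i < 1) (h' : ∀ i, 0 < α' i ∧ α' i < 1)
    (hσ : ∃ σ : Fin n ≃ Fin n', ∀ l, α' (σ l) = α l) {x : ℝ} (hx0 : 0 < x) (hx1 : x < 1) {A : Matrix (Fin n) (Fin n) ℂ}
    {A' : Matrix (Fin n') (Fin n') ℂ}
    (hrel : ∀ z : ℂ, LinX (QA α) (QA α') x (Yx n (QA α) x * NormedSpace.exp (z • A)) (Yx n' (QA α') x * NormedSpace.exp (z • A'))) :
    ∀ (a b : Fin n) (a' b' : Fin n'), (a : ℕ) = a' → (b : ℕ) = b' → A' a' b' = A a b := by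
  obtain ⟨σ, hσ⟩ := hσ
  obtain rfl : n' = n := card_eq σ
  have hc : cls α = cls α' := perm_cls σ fun l => ⟨0, by rw [hσ l]; simp⟩
  have hQ : QA α' = QA α := QA_cls h' h hc.symm
  have hYu := (Matrix.isUnit_iff_isUnit_det _).1 (Yx_unit hn h hx0 hx1)
  have hA : A' = A := by
    refine exp_inj fun z => ?_
    have h2 := hrel z 1 1 1 fun x _ _ => by
      rw [map_one, one_smul, Matrix.map_one _ (map_zero _) (map_one _), Matrix.map_one _ (map_zero _) (map_one _), Matrix.mul_one,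
        Matrix.one_mul, hQ]
    rw [map_one, one_smul, Matrix.map_one _ (map_zero _) (map_one _), Matrix.map_one _ (map_zero _) (map_one _), Matrix.mul_one,
      Matrix.one_mul, hQ] at h2
    calc NormedSpace.exp (z • A') = (Yx n' (QA α) x)⁻¹ * (Yx n' (QA α) x * NormedSpace.exp (z • A')) := by
          rw [← Matrix.mul_assoc, Matrix.nonsing_inv_mul _ hYu, Matrix.one_mul]
      _ = _ := by rw [h2, ← Matrix.mul_assoc, Matrix.nonsing_inv_mul _ hYu, Matrix.one_mul]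
  intro a b a' b' ha hb
  rw [hA, Fin.ext ha, Fin.ext hb]

lemma conv_dual {n n' : ℕ} (hn : 2 ≤ n) {α : Fin n → ℚ} {α' : Fin n' → ℚ} (h : ∀ i, 0 < α i ∧ α i < 1) (h' : ∀ i, 0 < α' i ∧ α' i < 1)
    (hσ : ∃ σ : Fin n ≃ Fin n', ∀ l, α' (σ l) + α l = 1) {x : ℝ} (hx0 : 0 < x) (hx1 : x < 1) {A : Matrix (Fin n) (Fin n) ℂ}
    {A' : Matrix (Fin n') (Fin n') ℂ}
    (hrel : ∀ z : ℂ, BilX (QA α) (QA α') x (Yx n (QA α) x * NormedSpace.exp (z • A)) (Yx n' (QA α') x * NormedSpace.exp (z • A'))) :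
    ∀ (a b : Fin n) (a' b' : Fin n'), (a : ℕ) + b' + 1 = n → (b : ℕ) + a' + 1 = n → A' a' b' = -(-1) ^ ((a' : ℕ) + b') * A a b := by
  obtain ⟨σ, hσ⟩ := hσ
  obtain rfl : n' = n := card_eq σ
  have hc : cls (fun l => -α l) = cls α' := perm_cls σ fun l => ⟨1, by push_cast; linarith [hσ l]⟩
  have hQ : QA α' = QA fun i => 1 - α i := QA_cls_neg h' h hc.symm
  refine K0_eq.1 ?_
  refine two_deriv fun z => ?_
  have h4 := conc_inv Pool.Agent.Q195.HG.conc hx0 hx1 hn h hQ (hrel z)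
  rw [← Matrix.exp_transpose, Matrix.transpose_smul] at h4
  exact h4

/-- **The Lie algebra acts through the explicit Lie algebra.** -/
theorem conv : S_Conv := by
  intro r n α D h01 hn X hX
  have hx0 : (0 : ℝ) < 1 / 2 := by norm_num
  have hx1 : (1 / 2 : ℝ) < 1 := by norm_num
  have hrel : ∀ z : ℂ, QuadX α (1 / 2) (fun j => Yx (n j) (QA (α j)) (1 / 2) *
      NormedSpace.exp (z • lkL (D.d j) (D.P j) (D.P' j) (X (D.q j)))) := by
    intro z
    have h1 := D.hX (fun a => NormedSpace.exp (z • X a))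
      (fun a => exp_GBs Pool.Agent.Q198.HG.der Pool.Agent.Q198.HG.tr (D.B0 a) (hX a) z) (1 / 2) hx0 hx1
    have h2 : (fun j => Yx (n j) (QA (α j)) (1 / 2) * lk (D.d j) (D.P j) (D.P' j) (NormedSpace.exp (z • X (D.q j)))) =
        fun j => Yx (n j) (QA (α j)) (1 / 2) * NormedSpace.exp (z • lkL (D.d j) (D.P j) (D.P' j) (X (D.q j))) := by
      funext j
      rw [lk_exp (D.h1 j) (D.h2 j)]
    rw [h2] at h1
    exact h1
  refine ⟨fun j => ?_, fun j j' hσ => ?_, fun j j' hσ => ?_⟩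
  · have h1 : (lkL (D.d j) (D.P j) (D.P' j) (X (D.q j))).trace =
        (if D.d j then -(X (D.q j))ᵀ else X (D.q j)).trace := by
      unfold lkL
      rw [Matrix.trace_mul_comm, ← Matrix.mul_assoc, D.h2, Matrix.one_mul]
    rw [h1]
    have h2 := (hX (D.q j)).1
    split_ifs
    · rw [Matrix.trace_neg, Matrix.trace_transpose, h2, neg_zero]
    · exact h2
  · exact conv_eq (hn j) (h01 j) (h01 j') hσ hx0 hx1 fun z => (hrel z).lin j j'
  · exact conv_dual (hn j) (h01 j) (h01 j') hσ hx0 hx1 fun z => (hrel z).bil j j'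

end Q207.HT
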