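import Pool.Agent.Q207.DB.StB
import Pool.Agent.Q207.HG.Hod

/-!
# Project HT: Hodge classes on sums; definitions and statements of the lemmas
-/

set_option autoImplicit false

open Matrix Finset

namespace Q207.HT

open Q207.DB (Labels Letter form dual prodT BD Okf Dl)
open Q207.HG (hB lkL Grd MonE Pk)

section act

variable {K κ : Type} [Fintype K] [Fintype κ] [DecidableEq κ]

/-- the action of a matrix as a derivation on the functions of words -/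
noncomputable def lieA (X : Matrix K K ℂ) : Module.End ℂ ((κ → K) → ℂ) where
  toFun u := fun p => ∑ l, ∑ y, X (p l) y * u (Function.update p l y)
  map_add' u v := by
    funext p
    simp only [Pi.add_apply, mul_add, Finset.sum_add_distrib]
  map_smul' c u := by
    funext p
    simp only [Pi.smul_apply, smul_eq_mul, RingHom.id_apply, Finset.mul_sum]
    refine Finset.sum_congr rfl fun l _ => Finset.sum_congr rfl fun x _ => ?_
    ring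

lemma lieA_apply (X : Matrix K K ℂ) (u : (κ → K) → ℂ) (p : κ → K) :
    lieA X u p = ∑ l, ∑ y, X (p l) y * u (Function.update p l y) := rfl

/-- killed by all matrices of a set -/
def InvL (H : Set (Matrix K K ℂ)) (u : (κ → K) → ℂ) : Prop := ∀ X ∈ H, lieA X u = 0

end act

/-- the span of the products of tensors of some degrees killed by `H` -/
noncomputable def gensL {K : Type} [Fintype K] (H : Set (Matrix K K ℂ)) (Δ : ℕ → Prop) (κ : Type) : Submodule ℂ ((κ → K) → ℂ) :=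
  Submodule.span ℂ {x | ∃ (l : ℕ) (s : Fin l → ℕ) (e : (Σ j, Fin (s j)) ≃ κ) (u : ∀ j, (Fin (s j) → K) → ℂ),
    (∀ j, Δ (s j) ∧ InvL H (u j)) ∧ x = prodT e u}

/-- the tensors killed by `H` are generated in the degrees `Δ` -/
def GenL {K : Type} [Fintype K] (H : Set (Matrix K K ℂ)) (Δ : ℕ → Prop) : Prop :=
  ∀ (κ : Type) [Fintype κ] [DecidableEq κ] (x : (κ → K) → ℂ), InvL H x → x ∈ gensL H Δ κ

/-- the Lie algebra of the group `D` -/
structure InLD {I : Type} [DecidableEq I] [Fintype I] {Λ : Labels I} (ε : Letter Λ → ℂ) (X : Matrix (Letter Λ) (Letter Λ) ℂ) :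
    Prop where
  block : ∀ x y, x.1 ≠ y.1 → X x y = 0
  form : X * form ε + form ε * X.transpose = 0
  tr : ∀ i : I, (Λ.star i ≠ i ∨ Λ.orth i = true) → ∑ a : Fin (Λ.dim i), X ⟨i, a⟩ ⟨i, a⟩ = 0

/-- HT1: the first fundamental theorem for the Lie algebra -/
def S_Fft : Prop := ∀ (I : Type) [Fintype I] [DecidableEq I] (Λ : Labels I) (ε : Letter Λ → ℂ),
  (∀ x : Letter Λ, ¬ Λ.orth x.1 = true → ε (dual x) = -ε x) → (∀ x, ε x ≠ 0) →
  GenL {X : Matrix (Letter Λ) (Letter Λ) ℂ | InLD ε X} fun s => s = 2 ∨ ∃ i, (Λ.star i ≠ i ∨ Λ.orth i = true) ∧ s = Λ.dim i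

/-- HT2: transport -/
def S_Trans : Prop := ∀ (X Y : Type) [Fintype X] [Fintype Y] [DecidableEq X] [DecidableEq Y] (HX : Set (Matrix X X ℂ))
  (HY : Set (Matrix Y Y ℂ)) (Δ : ℕ → Prop), GenL HY Δ → ∀ (J : Type) [Fintype J] (Q : J → Matrix Y X ℂ) (Q' : J → Matrix X Y ℂ),
  (∀ h ∈ HY, ∃ g ∈ HX, ∀ j, h * Q j = Q j * g) → (∀ g ∈ HX, ∃ h ∈ HY, ∀ j, g * Q' j = Q' j * h) → ∑ j, Q' j * Q j = 1 → GenL HX Δ

/-- HT2: transport between block diagonal matrices -/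
def S_TrBd : Prop := ∀ (I P : Type) [Fintype I] [DecidableEq I] [Fintype P] [DecidableEq P] (d : I → ℕ) (d' : P → ℕ)
  (Δ : ℕ → Prop) (V : Set (∀ i, Matrix (Fin (d i)) (Fin (d i)) ℂ)) (W : Set (∀ p, Matrix (Fin (d' p)) (Fin (d' p)) ℂ)),
  GenL (BD V) Δ → ∀ (ι : P → I) (N : ∀ p, Matrix (Fin (d (ι p))) (Fin (d' p)) ℂ) (N' : ∀ p, Matrix (Fin (d' p)) (Fin (d (ι p))) ℂ),
  (∀ p, N' p * N p = 1) → (∀ D ∈ V, ∃ w ∈ W, ∀ p, D (ι p) * N p = N p * w p) →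
  (∀ w ∈ W, ∃ D ∈ V, ∀ p, w p * N' p = N' p * D (ι p)) → GenL (BD W) Δ

/-- the Lie algebra of a product of classical groups, with the duals -/
def W1L {A : Type} {m : A → ℕ} (B : ∀ a, Matrix (Fin (m a)) (Fin (m a)) ℂ) :
    Set (∀ p : A × Bool, Matrix (Fin (m p.1)) (Fin (m p.1)) ℂ) :=
  {w | ∃ X : ∀ a, Matrix (Fin (m a)) (Fin (m a)) ℂ, (∀ a, X a ∈ hB (B a)) ∧ ∀ p, w p = if p.2 then -(X p.1)ᵀ else X p.1}

/-- HT3: the first fundamental theorem for the Lie algebras of products of classical groups with arbitrary forms -/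
def S_StA : Prop := ∀ (A : Type) [Fintype A] [DecidableEq A] (m : A → ℕ) (B : ∀ a, Matrix (Fin (m a)) (Fin (m a)) ℂ),
  Okf B → (∀ a, 0 < m a) → GenL (BD (W1L B)) (Dl B)

/-- the Lie algebra of an embedding -/
def WL {A : Type} {m : A → ℕ} {J : Type} {ν : J → ℕ} (B : ∀ a, Matrix (Fin (m a)) (Fin (m a)) ℂ) (q : J → A) (d : J → Bool)
    (P : ∀ j, Matrix (Fin (ν j)) (Fin (m (q j))) ℂ) (P' : ∀ j, Matrix (Fin (m (q j))) (Fin (ν j)) ℂ) :
    Set (∀ j, Matrix (Fin (ν j)) (Fin (ν j)) ℂ) :=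
  {w | ∃ X : ∀ a, Matrix (Fin (m a)) (Fin (m a)) ℂ, (∀ a, X a ∈ hB (B a)) ∧ ∀ j, w j = lkL (d j) (P j) (P' j) (X (q j))}

/-- HT4: embedded products -/
def S_StB : Prop := ∀ (A : Type) [Fintype A] [DecidableEq A] (m : A → ℕ) (B : ∀ a, Matrix (Fin (m a)) (Fin (m a)) ℂ),
  Okf B → (∀ a, 0 < m a) → ∀ (J : Type) [Fintype J] [DecidableEq J] (ν : J → ℕ) (q : J → A) (d : J → Bool)
  (P : ∀ j, Matrix (Fin (ν j)) (Fin (m (q j))) ℂ) (P' : ∀ j, Matrix (Fin (m (q j))) (Fin (ν j)) ℂ),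
  (∀ j, P j * P' j = 1) → (∀ j, P' j * P j = 1) → GenL (BD (WL B q d P P')) (Dl B)

/-- HT5: a complex matrix which kills a rational tensor is a combination of rational ones -/
def S_Rat : Prop := ∀ (K : Type) [Fintype K] [DecidableEq K] (r : ℕ) (u : (Fin r → K) → ℚ) (Φ : Matrix K K ℂ),
  lieA Φ (fun p => ((u p : ℚ) : ℂ)) = 0 →
  Φ ∈ Submodule.span ℂ ((fun X : Matrix K K ℚ => X.map (algebraMap ℚ ℂ)) ''
    {X | lieA (X.map (algebraMap ℚ ℂ)) (fun p => ((u p : ℚ) : ℂ)) = 0})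

/-- HT6: a real tensor which is killed by a matrix adapted to the Hodge filtration is a Hodge tensor -/
def S_Real : Prop := ∀ (I : Type) [Fintype I] [DecidableEq I] (lev : I → ℤ) (Z T Φ : Matrix I I ℂ)
  (H : ℤ → Submodule ℂ (I → ℂ)), IsUnit Z.det → DirectSum.IsInternal H →
  (∀ p, ∀ v ∈ H p, (fun a => (starRingEnd ℂ) (v a)) ∈ H (-p)) →
  (∀ p : ℤ, (⨆ q : {q : ℤ // p ≤ q}, H q) = Submodule.span ℂ {v | ∃ a, p ≤ lev a ∧ v = Z a}) →
  (∀ p, ∀ v ∈ H p, v ᵥ* Φ = (p : ℂ) • v) → Grd lev (Z * T * Z⁻¹) →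
  ∀ (r : ℕ) (u : (Fin r → I) → ℂ), (∀ p, (starRingEnd ℂ) (u p) = u p) → lieA Tᵀ u = 0 → lieA Φᵀ u = 0

/-- HT7: the converse of `monE_mem` -/
def S_Conv : Prop := ∀ (r : ℕ) (n : Fin r → ℕ) (α : ∀ j, Fin (n j) → ℚ) (D : Pk α), (∀ j i, 0 < α j i ∧ α j i < 1) → (∀ j, 2 ≤ n j) →
  ∀ X : ∀ a, Matrix (Fin (D.m a)) (Fin (D.m a)) ℂ, (∀ a, X a ∈ hB (D.B a)) →
  (fun j => lkL (D.d j) (D.P j) (D.P' j) (X (D.q j))) ∈ MonE α

section mix

variable {R K J κ : Type} [CommRing R]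

/-- extension by zero -/
def lft {s : ℕ} (v : (Fin s → K) → R) (p : Fin s → K ⊕ J) : R :=
  if h : ∀ a, (p a).isLeft = true then v fun a => (p a).getLeft (h a) else 0

/-- extension by zero -/
def rgt {s : ℕ} (c : (Fin s → J) → R) (p : Fin s → K ⊕ J) : R :=
  if h : ∀ a, (p a).isRight = true then c fun a => (p a).getRight (h a) else 0

/-- the product of tensors on the first space and one tensor on the second space -/
def mix {l : ℕ} {s : Fin l → ℕ} {s₀ : ℕ} (e : (Σ j, Fin (s j)) ⊕ Fin s₀ ≃ κ) (v : ∀ j, (Fin (s j) → K) → R)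
    (c : (Fin s₀ → J) → R) (p : κ → K ⊕ J) : R :=
  (∏ j, lft (v j) fun a => p (e (Sum.inl ⟨j, a⟩))) * rgt c fun a => p (e (Sum.inr a))

end mix

/-- HT8: rational tensors on a sum -/
def S_Mix : Prop := ∀ (K J : Type) [Fintype K] [DecidableEq K] [Fintype J] [DecidableEq J] (H : Set (Matrix K K ℂ)) (Δ : ℕ → Prop),
  GenL H Δ → ∀ VQ : (∀ s : ℕ, Set ((Fin s → K) → ℚ)),
  (∀ s, Δ s → ∀ v : (Fin s → K) → ℂ, InvL H v → v ∈ Submodule.span ℂ ((fun (x : (Fin s → K) → ℚ) p => ((x p : ℚ) : ℂ)) '' VQ s)) →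
  ∀ (Φ : Matrix K K ℂ) (Φ' : Matrix J J ℂ), (∀ s, Δ s → ∀ v ∈ VQ s, lieA Φ (fun p => ((v p : ℚ) : ℂ)) = 0) →
  ∀ (r : ℕ) (u : (Fin r → K ⊕ J) → ℚ), (∀ X ∈ H, lieA (fromBlocks X 0 0 (0 : Matrix J J ℂ)) (fun p => ((u p : ℚ) : ℂ)) = 0) →
  lieA (fromBlocks Φ 0 0 Φ') (fun p => ((u p : ℚ) : ℂ)) = 0 →
  u ∈ Submodule.span ℚ {x | ∃ (l : ℕ) (s : Fin l → ℕ) (s₀ : ℕ) (e : (Σ j, Fin (s j)) ⊕ Fin s₀ ≃ Fin r)
    (v : ∀ j, (Fin (s j) → K) → ℚ) (c : (Fin s₀ → J) → ℚ), (∀ j, Δ (s j) ∧ v j ∈ VQ (s j)) ∧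
    lieA Φ' (fun p => ((c p : ℚ) : ℂ)) = 0 ∧ x = mix e v c}

end Q207.HT
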